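import Pool.Agent.Helper75.GR.All
import Pool.Agent.Helper44.GJ.All

/-!
# The face inequality for polyhedral cycles in `ℓ^p_n`, `3/2 ≤ p ≤ 11/5`, in all dimensions

`d = m + 1` is the dimension of the cycle. The inequality is proved for every `d`, every `n` and
every `p ≠ 2` with `3/2 ≤ p ≤ 11/5`.
-/

open Finset MeasureTheory
open scoped ENNReal ContDiff

namespace Pool.Agent.Results.MP_d210aa_gt.FaceInequalityThreeHalves

/-- An oriented compact convex `d`-dimensional polytope lying in an affine `d`-plane of `ℝⁿ`. It is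
the image of the convex hull of the finite set `verts` of `ℝᵈ`, which has nonempty interior, by the
injective affine map `t ↦ base + ∑ t_k frame_k`. The orientation is given by the basis `frame` of
the direction space. -/
structure Face (d n : ℕ) where
  verts : Finset (Fin d → ℝ)
  solid : (interior (convexHull ℝ (verts : Set (Fin d → ℝ)))).Nonempty
  base : Fin n → ℝ
  frame : Fin d → Fin n → ℝ
  indep : LinearIndependent ℝ frame

/-- The parametrisation of the affine plane of the face. -/
def Face.param {d n : ℕ} (F : Face d n) (t : Fin d → ℝ) : Fin n → ℝ :=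
  F.base + ∑ k, t k • F.frame k

/-- The polytope as a subset of `ℓ^p_n`. -/
def Face.carrier {d n : ℕ} (p : ℝ≥0∞) (F : Face d n) : Set (PiLp p (fun _ : Fin n => ℝ)) :=
  (fun t => WithLp.toLp p (F.param t)) '' convexHull ℝ (F.verts : Set (Fin d → ℝ))

/-- The integral over the oriented polytope of the exterior derivative of a form `w` of degree
`m`. -/
noncomputable def Face.integralExtDeriv {m n : ℕ} (F : Face (m + 1) n)
    (w : (Fin n → ℝ) → (Fin n → ℝ) [⋀^Fin m]→L[ℝ] ℝ) : ℝ :=
  ∫ t in convexHull ℝ (F.verts : Set (Fin (m + 1) → ℝ)), extDeriv w (F.param t) F.frame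

/-- The polyhedral chain `∑ θ_j [F_j]` is a cycle: `∑ θ_j ∫_{F_j} dw = 0` for every smooth form `w`
of degree one less, that is, its boundary (as a current) is zero. -/
def IsCycle {m n K : ℕ} (F : Fin K → Face (m + 1) n) (θ : Fin K → ℤ) : Prop :=
  ∀ w : (Fin n → ℝ) → (Fin n → ℝ) [⋀^Fin m]→L[ℝ] ℝ, ContDiff ℝ ∞ w →
    ∑ j, (θ j : ℝ) * (F j).integralExtDeriv w = 0

/-- The face in the notation of the proof. -/
def Face.toGF {d n : ℕ} (F : Face d n) : Pool.Agent.Helper44.GF.Face d n :=
  ⟨F.verts, F.solid, F.base, F.frame, F.indep⟩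

/-- In `ℓ^p_n` with `3/2 ≤ p ≤ 11/5`, `p ≠ 2`, the Hausdorff measure of each face of a polyhedral
`(m+1)`-cycle is at most the sum of the Hausdorff measures of the other faces. -/
theorem result (m n K : ℕ) (p : ℝ) (hp : 3 / 2 ≤ p) (hp2 : p ≤ 11 / 5) (hne : p ≠ 2)
    [Fact (1 ≤ ENNReal.ofReal p)] (F : Fin K → Face (m + 1) n) (θ : Fin K → ℤ)
    (hθ : ∀ j, θ j ≠ 0) (hF : IsCycle F θ) (i : Fin K) :
    μH[(m : ℝ) + 1] ((F i).carrier (ENNReal.ofReal p))
      ≤ ∑ j ∈ univ.erase i, μH[(m : ℝ) + 1] ((F j).carrier (ENNReal.ofReal p)) := by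
  rcases lt_or_gt_of_ne hne with h | h
  · exact Pool.Agent.Helper75.GR.all_MAIN m n K p hp h (fun j => (F j).toGF) θ hθ hF i
  · exact Pool.Agent.Helper44.GJ.all_MN m n K p h hp2 (fun j => (F j).toGF) θ hθ hF i

end Pool.Agent.Results.MP_d210aa_gt.FaceInequalityThreeHalves
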